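import Pool.Agent.V7H41.CC.Spec4

/-! GREEDY: many systems of `m` pairs with disjoint paths in two trees. -/

set_option autoImplicit false

open Finset
open scoped Classical

namespace Pool.Agent.V7H81.CC

open Pool.Agent.V7H41.CC

section comb

variable {n : ℕ}

/-- the indices of the pieces which contain a member of `Q` -/
noncomputable def used {r : ℕ} (Z : Fin r → Finset (Fin n)) (Q : Finset (Finset (Fin n))) :
    Finset (Fin r) := univ.filter fun i => ∃ A ∈ Q, A ⊆ Z i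

theorem two_unique {r : ℕ} {Z : Fin r → Finset (Fin n)}
    (hZ : ∀ i j, i ≠ j → Disjoint (Z i) (Z j)) {A : Finset (Fin n)} (hA : A.card = 2)
    {i j : Fin r} (hi : A ⊆ Z i) (hj : A ⊆ Z j) : i = j := by
  by_contra hne
  have h4 : A ⊆ Z i ∩ Z j := subset_inter hi hj
  rw [disjoint_iff_inter_eq_empty.1 (hZ i j hne)] at h4
  rw [subset_empty.1 h4] at hA
  simp at hA

theorem used_card {r : ℕ} {Z : Fin r → Finset (Fin n)}
    (hZ : ∀ i j, i ≠ j → Disjoint (Z i) (Z j)) {Q : Finset (Finset (Fin n))}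
    (hQ : ∀ A ∈ Q, A.card = 2) : (used Z Q).card ≤ Q.card := by
  have h : ∀ i ∈ used Z Q, ∃ A ∈ Q, A ⊆ Z i := fun i hi => (mem_filter.1 hi).2
  choose! f hf using h
  apply card_le_card_of_injOn f (fun i hi => (hf i hi).1)
  intro i hi j hj hij
  have h2 := (hf j hj).2
  rw [← hij] at h2
  exact two_unique hZ (hQ _ (hf i hi).1) (hf i hi).2 h2

theorem all_card {r : ℕ} {Z : Fin r → Finset (Fin n)}
    (hZ : ∀ i j, i ≠ j → Disjoint (Z i) (Z j)) (I : Finset (Fin r)) :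
    (I.biUnion Z).card = ∑ i ∈ I, (Z i).card :=
  card_biUnion fun i _ j _ hij => hZ i j hij

theorem le_n (A : Finset (Fin n)) : A.card ≤ n := by
  have := card_le_univ A
  rwa [Fintype.card_fin] at this

theorem rest_card {r s : ℕ} {Z : Fin r → Finset (Fin n)}
    (hZ : ∀ i j, i ≠ j → Disjoint (Z i) (Z j)) (hs : ∀ i, s ≤ (Z i).card ∧ (Z i).card < 2 * s)
    (hn : n < (∑ i, (Z i).card) + 2 * s) {Q : Finset (Finset (Fin n))}
    (hQ : ∀ A ∈ Q, A.card = 2) :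
    n < ((univ \ used Z Q).biUnion Z).card + 2 * s * (Q.card + 1) := by
  have h1 : ∑ i ∈ univ \ used Z Q, (Z i).card + ∑ i ∈ used Z Q, (Z i).card =
      ∑ i, (Z i).card := sum_sdiff (subset_univ _)
  have h2 : ∑ i ∈ used Z Q, (Z i).card ≤ (used Z Q).card * (2 * s) := by
    have := sum_le_card_nsmul (used Z Q) (fun i => (Z i).card) (2 * s) fun i _ => (hs i).2.le
    simpa using this
  have h3 : (used Z Q).card * (2 * s) ≤ Q.card * (2 * s) :=
    Nat.mul_le_mul_right _ (used_card hZ hQ)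
  rw [all_card hZ]
  have h4 : 2 * s * (Q.card + 1) = Q.card * (2 * s) + 2 * s := by ring
  rw [h4]
  omega

theorem num {R s S2 c : ℝ} {nn : ℝ} (hn : 0 < nn) (hs : 0 < s) (h2 : 3 * nn < 4 * R)
    (h3 : 4 * nn ≤ s ^ 2) (h1 : R ^ 2 ≤ c * S2) (hc : c * s ^ 2 ≤ nn ^ 2) (hS : 0 ≤ S2) :
    s ^ 2 / 8 ≤ (S2 - R) / 2 := by
  by_contra hcon
  push Not at hcon
  have hR : 0 < R := by linarith
  have hs2 : 0 < s ^ 2 := by positivity
  have h4 : S2 < R + s ^ 2 / 4 := by linarith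
  have h5 : R ^ 2 * s ^ 2 ≤ nn ^ 2 * S2 := by
    calc R ^ 2 * s ^ 2 ≤ (c * S2) * s ^ 2 := mul_le_mul_of_nonneg_right h1 hs2.le
      _ = (c * s ^ 2) * S2 := by ring
      _ ≤ nn ^ 2 * S2 := mul_le_mul_of_nonneg_right hc hS
  have h6 : nn ^ 2 * S2 < nn ^ 2 * (R + s ^ 2 / 4) := mul_lt_mul_of_pos_left h4 (by positivity)
  have h7 : nn ^ 2 * R ≤ (nn * R / 4) * s ^ 2 := by
    have : nn * R * (4 * nn) ≤ nn * R * s ^ 2 := mul_le_mul_of_nonneg_left h3 (by positivity)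
    nlinarith
  have h8 : R ^ 2 * s ^ 2 < (nn * R / 4 + nn ^ 2 / 4) * s ^ 2 := by nlinarith
  have h9 : R ^ 2 < nn * R / 4 + nn ^ 2 / 4 := lt_of_mul_lt_mul_right h8 hs2.le
  nlinarith [mul_pos hn hR, mul_pos hR hR]

variable {q q' : ℕ} (X : Fin q → Finset (Fin n)) (Y : Fin q' → Finset (Fin n))

/-- admissible systems of pairs -/
def Good (Q : Finset (Finset (Fin n))) : Prop :=
  (∀ A ∈ Q, A.card = 2 ∧ (∃ i, A ⊆ X i) ∧ ∃ j, A ⊆ Y j) ∧
  ∀ A ∈ Q, ∀ B ∈ Q, A ≠ B → (∀ i, A ⊆ X i → ¬ B ⊆ X i) ∧ ∀ j, A ⊆ Y j → ¬ B ⊆ Y j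

/-- the admissible systems with `t` pairs -/
noncomputable def NN (t : ℕ) : Finset (Finset (Finset (Fin n))) :=
  univ.filter fun Q => Q.card = t ∧ Good X Y Q

/-- the further pairs -/
noncomputable def ext (Q : Finset (Finset (Fin n))) : Finset (Finset (Fin n)) :=
  ((univ \ used X Q) ×ˢ (univ \ used Y Q)).biUnion fun p => powersetCard 2 (X p.1 ∩ Y p.2)

variable {X Y}

theorem ext_card (hX : ∀ i j, i ≠ j → Disjoint (X i) (X j))
    (hY : ∀ i j, i ≠ j → Disjoint (Y i) (Y j)) (Q : Finset (Finset (Fin n))) :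
    (ext X Y Q).card = ∑ p ∈ (univ \ used X Q) ×ˢ (univ \ used Y Q),
      (X p.1 ∩ Y p.2).card.choose 2 := by
  unfold ext
  rw [card_biUnion]
  · exact sum_congr rfl fun p _ => card_powersetCard _ _
  · intro p _ p' _ hpp
    change Disjoint (powersetCard 2 (X p.1 ∩ Y p.2)) (powersetCard 2 (X p'.1 ∩ Y p'.2))
    rw [Finset.disjoint_left]
    intro A hA hA'
    rw [mem_powersetCard] at hA hA'
    apply hpp
    exact Prod.ext (two_unique hX hA.2 (hA.1.trans inter_subset_left)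
      (hA'.1.trans inter_subset_left)) (two_unique hY hA.2 (hA.1.trans inter_subset_right)
      (hA'.1.trans inter_subset_right))

theorem ext_low {m s : ℕ} (hs1 : 1 ≤ s) (hn1 : 16 * s * (m + 1) ≤ n) (hn2 : 4 * n ≤ s ^ 2)
    (hX : ∀ i j, i ≠ j → Disjoint (X i) (X j)) (hY : ∀ i j, i ≠ j → Disjoint (Y i) (Y j))
    (hXs : ∀ i, s ≤ (X i).card ∧ (X i).card < 2 * s) (hYs : ∀ i, s ≤ (Y i).card ∧ (Y i).card < 2 * s)
    (hXn : n < (∑ i, (X i).card) + 2 * s) (hYn : n < (∑ i, (Y i).card) + 2 * s)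
    {Q : Finset (Finset (Fin n))} (hQ : ∀ A ∈ Q, A.card = 2) (hQm : Q.card + 1 ≤ m) :
    (s : ℝ) ^ 2 / 8 ≤ ((ext X Y Q).card : ℝ) := by
  have hnpos : 0 < n := by
    have : 1 ≤ 16 * s * (m + 1) := by
      have : 1 ≤ s * (m + 1) := Nat.mul_pos hs1 (by omega)
      nlinarith
    omega
  rw [ext_card hX hY]
  obtain ⟨I, hI⟩ : ∃ I, I = univ \ used X Q := ⟨_, rfl⟩
  obtain ⟨J, hJ⟩ : ∃ J, J = univ \ used Y Q := ⟨_, rfl⟩
  have hU := rest_card hX hXs hXn hQ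
  have hV := rest_card hY hYs hYn hQ
  rw [← hI] at hU ⊢
  rw [← hJ] at hV ⊢
  obtain ⟨R, hR⟩ : ∃ R, R = ∑ p ∈ I ×ˢ J, (X p.1 ∩ Y p.2).card := ⟨_, rfl⟩
  have h1 : (I.biUnion X ∩ J.biUnion Y).card ≤ R := by
    rw [hR]
    refine le_trans (card_le_card ?_) card_biUnion_le
    intro a ha
    rw [mem_inter, mem_biUnion, mem_biUnion] at ha
    obtain ⟨⟨i, hi, hai⟩, j, hj, haj⟩ := ha
    rw [mem_biUnion]
    exact ⟨(i, j), mem_product.2 ⟨hi, hj⟩, mem_inter.2 ⟨hai, haj⟩⟩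
  have h2 := card_union_add_card_inter (I.biUnion X) (J.biUnion Y)
  have h3 := le_n (I.biUnion X ∪ J.biUnion Y)
  have h4 : n < R + 4 * s * (Q.card + 1) := by
    have : 4 * s * (Q.card + 1) = 2 * s * (Q.card + 1) + 2 * s * (Q.card + 1) := by ring
    omega
  have h5 : 4 * (4 * s * (Q.card + 1)) ≤ n := by
    refine le_trans ?_ hn1
    have : 4 * (4 * s * (Q.card + 1)) = 16 * s * (Q.card + 1) := by ring
    rw [this]
    exact Nat.mul_le_mul_left _ (by omega)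
  have h6 : 3 * n < 4 * R := by omega
  have hq : ∀ {r : ℕ} {Z : Fin r → Finset (Fin n)}, (∀ i j, i ≠ j → Disjoint (Z i) (Z j)) →
      (∀ i, s ≤ (Z i).card ∧ (Z i).card < 2 * s) → ∀ K : Finset (Fin r), K.card * s ≤ n := by
    intro r Z hZ hZs K
    have h7 : K.card * s ≤ ∑ i ∈ K, (Z i).card := by
      have := card_nsmul_le_sum K (fun i => (Z i).card) s fun i _ => (hZs i).1
      simpa using this
    rw [← all_card hZ] at h7
    exact h7.trans (le_n _)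
  have hc : ((I ×ˢ J).card : ℝ) * (s : ℝ) ^ 2 ≤ (n : ℝ) ^ 2 := by
    have h7 := hq hX hXs I
    have h8 := hq hY hYs J
    have h9 : (I.card * s) * (J.card * s) ≤ n * n := Nat.mul_le_mul h7 h8
    rw [card_product]
    have h10 : ((I.card * s) * (J.card * s) : ℝ) ≤ n * n := by exact_mod_cast h9
    push_cast
    nlinarith
  have hcs := sq_sum_le_card_mul_sum_sq (s := I ×ˢ J)
    (f := fun p => (((X p.1 ∩ Y p.2).card : ℕ) : ℝ))
  have hRR : ∑ p ∈ I ×ˢ J, (((X p.1 ∩ Y p.2).card : ℕ) : ℝ) = (R : ℝ) := by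
    rw [hR]
    push_cast
    rfl
  rw [hRR] at hcs
  have hfin := num (nn := (n : ℝ)) (R := (R : ℝ)) (s := (s : ℝ))
    (S2 := ∑ p ∈ I ×ˢ J, (((X p.1 ∩ Y p.2).card : ℕ) : ℝ) ^ 2) (c := ((I ×ˢ J).card : ℝ))
    (by exact_mod_cast hnpos) (by exact_mod_cast hs1) (by exact_mod_cast h6)
    (by exact_mod_cast hn2) hcs hc (sum_nonneg fun _ _ => sq_nonneg _)
  refine hfin.trans (le_of_eq ?_)
  rw [← hRR, ← sum_sub_distrib, sum_div]
  push_cast
  refine sum_congr rfl fun p _ => ?_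
  rw [Nat.cast_choose_two]
  ring

theorem step {m s : ℕ} (hs1 : 1 ≤ s) (hn1 : 16 * s * (m + 1) ≤ n) (hn2 : 4 * n ≤ s ^ 2)
    (hX : ∀ i j, i ≠ j → Disjoint (X i) (X j)) (hY : ∀ i j, i ≠ j → Disjoint (Y i) (Y j))
    (hXs : ∀ i, s ≤ (X i).card ∧ (X i).card < 2 * s) (hYs : ∀ i, s ≤ (Y i).card ∧ (Y i).card < 2 * s)
    (hXn : n < (∑ i, (X i).card) + 2 * s) (hYn : n < (∑ i, (Y i).card) + 2 * s)
    (t : ℕ) (ht : t + 1 ≤ m) :
    ((s : ℝ) ^ 2 / 8) * ((NN X Y t).card : ℝ) ≤ ((t : ℝ) + 1) * ((NN X Y (t + 1)).card : ℝ) := by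
  have hout : ∀ Q : Finset (Finset (Fin n)), ∀ A ∈ ext X Y Q, A.card = 2 ∧
      ∃ i j, A ⊆ X i ∧ A ⊆ Y j ∧ (∀ B ∈ Q, ¬ B ⊆ X i) ∧ ∀ B ∈ Q, ¬ B ⊆ Y j := by
    intro Q A hA
    unfold ext at hA
    rw [mem_biUnion] at hA
    obtain ⟨p, hp, hA⟩ := hA
    rw [mem_product, mem_sdiff, mem_sdiff] at hp
    rw [mem_powersetCard] at hA
    refine ⟨hA.2, p.1, p.2, hA.1.trans inter_subset_left, hA.1.trans inter_subset_right,
      fun B hB hBX => hp.1.2 (mem_filter.2 ⟨mem_univ _, B, hB, hBX⟩),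
      fun B hB hBY => hp.2.2 (mem_filter.2 ⟨mem_univ _, B, hB, hBY⟩)⟩
  have hnot : ∀ Q : Finset (Finset (Fin n)), ∀ A ∈ ext X Y Q, A ∉ Q := by
    intro Q A hA hAQ
    obtain ⟨-, i, j, h1, -, h2, -⟩ := hout Q A hA
    exact h2 A hAQ h1
  have hins : ∀ Q ∈ NN X Y t, ∀ A ∈ ext X Y Q, insert A Q ∈ NN X Y (t + 1) := by
    intro Q hQ A hA
    obtain ⟨h0, i, j, h1, h1', h2, h2'⟩ := hout Q A hA
    unfold NN at hQ ⊢
    rw [mem_filter] at hQ ⊢
    obtain ⟨-, hQc, hQ1, hQ2⟩ := hQ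
    refine ⟨mem_univ _, by rw [card_insert_of_notMem (hnot Q A hA), hQc], ?_, ?_⟩
    · intro B hB
      rcases mem_insert.1 hB with rfl | hB
      · exact ⟨h0, ⟨i, h1⟩, j, h1'⟩
      · exact hQ1 B hB
    · intro B hB B' hB' hBB
      rcases mem_insert.1 hB with hBA | hBQ
      · rcases mem_insert.1 hB' with hBA' | hBQ'
        · exact absurd (hBA.trans hBA'.symm) hBB
        · subst hBA
          refine ⟨fun k hk hk' => ?_, fun k hk hk' => ?_⟩
          · rw [two_unique hX h0 hk h1] at hk'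
            exact h2 B' hBQ' hk'
          · rw [two_unique hY h0 hk h1'] at hk'
            exact h2' B' hBQ' hk'
      · rcases mem_insert.1 hB' with hBA' | hBQ'
        · subst hBA'
          refine ⟨fun k hk hk' => ?_, fun k hk hk' => ?_⟩
          · rw [two_unique hX h0 hk' h1] at hk
            exact h2 B hBQ hk
          · rw [two_unique hY h0 hk' h1'] at hk
            exact h2' B hBQ hk
        · exact hQ2 B hBQ B' hBQ' hBB
  have hcard : ((NN X Y t).sigma fun Q => ext X Y Q).card ≤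
      ((NN X Y (t + 1)).sigma fun Q => Q).card := by
    apply card_le_card_of_injOn
      (fun x : (_ : Finset (Finset (Fin n))) × Finset (Fin n) =>
        (⟨insert x.2 x.1, x.2⟩ : (_ : Finset (Finset (Fin n))) × Finset (Fin n)))
    · rintro ⟨Q, A⟩ hx
      rw [mem_coe, mem_sigma] at hx
      rw [mem_coe, mem_sigma]
      exact ⟨hins Q hx.1 A hx.2, mem_insert_self _ _⟩
    · rintro ⟨Q, A⟩ hx ⟨Q', A'⟩ hx' he
      rw [mem_coe, mem_sigma] at hx hx'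
      have h1 : insert A Q = insert A' Q' := congrArg Sigma.fst he
      have h2 : A = A' := congrArg
        (fun y : (_ : Finset (Finset (Fin n))) × Finset (Fin n) => y.2) he
      subst h2
      have h3 : Q = Q' := by
        rw [← erase_insert (hnot Q A hx.2), h1, erase_insert (hnot Q' A hx'.2)]
      rw [h3]
  rw [card_sigma, card_sigma] at hcard
  have h1 : ∑ Q ∈ NN X Y (t + 1), Q.card = (NN X Y (t + 1)).card * (t + 1) := by
    rw [sum_congr rfl fun Q hQ => (mem_filter.1 hQ).2.1, sum_const, smul_eq_mul]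
  rw [h1] at hcard
  have h2 : ((NN X Y t).card : ℝ) * ((s : ℝ) ^ 2 / 8) ≤
      ∑ Q ∈ NN X Y t, ((ext X Y Q).card : ℝ) := by
    have := card_nsmul_le_sum (NN X Y t) (fun Q => ((ext X Y Q).card : ℝ)) ((s : ℝ) ^ 2 / 8)
      fun Q hQ => by
        obtain ⟨-, hQc, hQ1, -⟩ := mem_filter.1 hQ
        exact ext_low hs1 hn1 hn2 hX hY hXs hYs hXn hYn (fun A hA => (hQ1 A hA).1) (by omega)
    simpa using this
  have h3 : ∑ Q ∈ NN X Y t, ((ext X Y Q).card : ℝ) ≤ ((NN X Y (t + 1)).card : ℝ) * ((t : ℝ) + 1) := by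
    exact_mod_cast hcard
  linarith

theorem many {m s : ℕ} (hs1 : 1 ≤ s) (hn1 : 16 * s * (m + 1) ≤ n) (hn2 : 4 * n ≤ s ^ 2)
    (hX : ∀ i j, i ≠ j → Disjoint (X i) (X j)) (hY : ∀ i j, i ≠ j → Disjoint (Y i) (Y j))
    (hXs : ∀ i, s ≤ (X i).card ∧ (X i).card < 2 * s) (hYs : ∀ i, s ≤ (Y i).card ∧ (Y i).card < 2 * s)
    (hXn : n < (∑ i, (X i).card) + 2 * s) (hYn : n < (∑ i, (Y i).card) + 2 * s) :
    ∀ t ≤ m, ((s : ℝ) ^ 2 / 8) ^ t / t.factorial ≤ ((NN X Y t).card : ℝ) := by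
  intro t
  induction t with
  | zero =>
    intro _
    have h1 : (∅ : Finset (Finset (Fin n))) ∈ NN X Y 0 :=
      mem_filter.2 ⟨mem_univ _, card_empty, fun A hA => absurd hA (notMem_empty A),
        fun A hA => absurd hA (notMem_empty A)⟩
    have h2 : 1 ≤ (NN X Y 0).card := card_pos.2 ⟨_, h1⟩
    simp only [pow_zero, Nat.factorial_zero, Nat.cast_one, div_one]
    exact_mod_cast h2
  | succ t ih =>
    intro ht
    have h1 := ih (by omega)
    have h2 := step hs1 hn1 hn2 hX hY hXs hYs hXn hYn t ht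
    have h3 : (0 : ℝ) < (t : ℝ) + 1 := by positivity
    have h4 : ((s : ℝ) ^ 2 / 8) * (((s : ℝ) ^ 2 / 8) ^ t / t.factorial) ≤
        ((t : ℝ) + 1) * ((NN X Y (t + 1)).card : ℝ) :=
      (mul_le_mul_of_nonneg_left h1 (by positivity)).trans h2
    rw [Nat.factorial_succ]
    push_cast
    rw [div_le_iff₀ (by positivity)]
    have h5 : (0 : ℝ) < (t.factorial : ℝ) := by exact_mod_cast Nat.factorial_pos t
    have h6 := mul_le_mul_of_nonneg_right h4 h5.le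
    have h7 : ((s : ℝ) ^ 2 / 8) * (((s : ℝ) ^ 2 / 8) ^ t / t.factorial) * t.factorial =
        ((s : ℝ) ^ 2 / 8) ^ (t + 1) := by
      rw [mul_assoc, div_mul_cancel₀ _ h5.ne', ← pow_succ' ((s : ℝ) ^ 2 / 8) t]
    rw [h7] at h6
    linarith

end comb

theorem t_GREEDY : S_GREEDY := by
  intro n m s hs1 hn1 hn2 T F q q' X Y hXs hXn hX hXT hYs hYn hY hYF
  have h1 := many (X := X) (Y := Y) hs1 hn1 hn2 hX hY hXs hYs hXn hYn m le_rfl
  refine h1.trans ?_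
  rw [← Set.ncard_coe_finset]
  apply Nat.cast_le.2
  apply Set.ncard_le_ncard _ (Set.toFinite _)
  intro Q hQ
  rw [mem_coe] at hQ
  obtain ⟨-, hQc, hQ1, hQ2⟩ := mem_filter.1 hQ
  refine ⟨hQc, fun A hA => (hQ1 A hA).1, fun A hA B hB hAB => ?_⟩
  obtain ⟨-, ⟨i, hi⟩, j, hj⟩ := hQ1 A hA
  obtain ⟨-, ⟨i', hi'⟩, j', hj'⟩ := hQ1 B hB
  obtain ⟨h2, h3⟩ := hQ2 A hA B hB hAB
  refine ⟨hXT i i' ?_ A B hi hi', hYF j j' ?_ A B hj hj'⟩
  · rintro rfl
    exact h2 i hi hi'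
  · rintro rfl
    exact h3 j hj hj'

end Pool.Agent.V7H81.CC
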